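import Pool.Agent.J4H67.SL.One
import Pool.Agent.J4H67.SL.Inter2

/-!
One-sided bounds on interlaced sets and iterated sums, for sequences whose logarithm has small
differences of all orders (step `1`).
-/

set_option autoImplicit false

namespace Pool.Agent.J4H67.WI

open Filter Topology Finset
open Pool.Agent.J4H67.SL

/-- one-sided bounds on two sets -/
theorem inter1 {κ ρ : ℝ} (hρ0 : 0 ≤ ρ) (hκ1 : κ ≤ 1) (hκρ : ρ < κ) {H : ℕ → ℝ}
    (hH : Smooth1 κ H) {S S' : Set ℕ} (hS : Meets1 S ρ) (hS' : Meets1 S' ρ) {D : ℝ} (hD : 0 ≤ D)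
    (hup : ∃ C : ℝ, ∀ᶠ n : ℕ in atTop ⊓ 𝓟 S, H n ≤ C * (n : ℝ) ^ (-D))
    (hlo : ∃ C : ℝ, ∀ᶠ n : ℕ in atTop ⊓ 𝓟 S', -(C * (n : ℝ) ^ (-D)) ≤ H n) :
    H =O[atTop] fun n : ℕ => (n : ℝ) ^ (-D) := by
  have h1 : ρ < (ρ + κ) / 2 := by linarith
  have hb : ∀ (C : ℝ) (m : ℕ), 2 ≤ m →
      C * ((m / 2 : ℕ) : ℝ) ^ (-D) ≤ |C| * 3 ^ D * (m : ℝ) ^ (-D) := by
    intro C m hm
    calc C * ((m / 2 : ℕ) : ℝ) ^ (-D) ≤ |C| * ((m / 2 : ℕ) : ℝ) ^ (-D) :=
          mul_le_mul_of_nonneg_right (le_abs_self C) (by positivity)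
      _ ≤ |C| * (3 ^ D * (m : ℝ) ^ (-D)) :=
          mul_le_mul_of_nonneg_left (rpow_half hD hm) (abs_nonneg C)
      _ = _ := by ring
  have h2 := interlaced (ρ := (ρ + κ) / 2) (by linarith) (by linarith) (by linarith)
    (hH.double (by linarith)) (hS.double hρ0 h1) (hS'.double hρ0 h1) hD
    (by
      obtain ⟨C, hC⟩ := hup
      refine ⟨|C| * 3 ^ D, ?_⟩
      filter_upwards [(tendsto_half S).eventually hC,
        (eventually_ge_atTop 2).filter_mono inf_le_left] with m h3 hm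
      exact h3.trans (hb C m hm))
    (by
      obtain ⟨C, hC⟩ := hlo
      refine ⟨|C| * 3 ^ D, ?_⟩
      filter_upwards [(tendsto_half S').eventually hC,
        (eventually_ge_atTop 2).filter_mono inf_le_left] with m h3 hm
      have h4 := hb C m hm
      have h5 : -(C * ((m / 2 : ℕ) : ℝ) ^ (-D)) ≤ H (m / 2) := h3
      linarith)
  have h3 := h2.comp_tendsto tendsto_two
  have e1 : (fun n : ℕ => H (2 * n / 2)) = H := by
    funext n
    rw [show 2 * n / 2 = n by omega]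
  have h4 : H =O[atTop] fun n : ℕ => ((2 * n : ℕ) : ℝ) ^ (-D) := by
    have : ((fun n => H (n / 2)) ∘ fun n : ℕ => 2 * n) = H := e1
    rw [this] at h3
    exact h3
  refine h4.trans (Asymptotics.IsBigO.of_bound 1 ?_)
  filter_upwards [eventually_ge_atTop 1] with n hn
  have hn0 : (0 : ℝ) < n := by exact_mod_cast hn
  rw [Real.norm_of_nonneg (by positivity), Real.norm_of_nonneg (by positivity), one_mul]
  refine Real.rpow_le_rpow_of_nonpos hn0 ?_ (by linarith)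
  push_cast
  linarith

/-- a sequence with small first differences changes little on short windows -/
theorem near {κ ρ : ℝ} (hρ1 : ρ ≤ 1) (hκρ : ρ ≤ κ) {h : ℕ → ℝ} (hh : Smooth1 κ h) :
    ∃ C : ℝ, 0 ≤ C ∧ ∀ n : ℕ, 1 ≤ n → ∀ j : ℕ, (j : ℝ) ≤ (n : ℝ) ^ ρ →
      |h (n + j) - h n| ≤ C := by
  obtain ⟨C, hC⟩ := hh 1 le_rfl
  refine ⟨|C| * 2 ^ |κ|, by positivity, fun n hn j hj => ?_⟩
  have hn0 : (0 : ℝ) < n := by exact_mod_cast hn
  have hn1 : (1 : ℝ) ≤ n := by exact_mod_cast hn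
  have hstep : ∀ i : ℕ, i < j → |h (n + (i + 1)) - h (n + i)| ≤ |C| * 2 ^ |κ| * (n : ℝ) ^ (-κ) := by
    intro i hi
    have h1 := hC (n + i) (by omega)
    have e : d1 1 h (n + i) = h (n + i) - h (n + (i + 1)) := by
      simp [d1, sum_range_succ, ← add_assoc]
      ring
    rw [e, abs_sub_comm] at h1
    have hi' : ((n + i : ℕ) : ℝ) ≤ 2 * n := by
      have h2 : (n : ℝ) ^ ρ ≤ n := by
        conv_rhs => rw [← Real.rpow_one (n : ℝ)]
        exact Real.rpow_le_rpow_of_exponent_le hn1 hρ1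
      have h3 : (i : ℝ) ≤ j := by exact_mod_cast hi.le
      push_cast
      linarith
    have hi1 : (n : ℝ) ≤ ((n + i : ℕ) : ℝ) := by exact_mod_cast Nat.le_add_right n i
    have hi0 : (0 : ℝ) < ((n + i : ℕ) : ℝ) := by linarith
    have h4 : ((n + i : ℕ) : ℝ) ^ (-(κ * (1 : ℕ))) ≤ 2 ^ |κ| * (n : ℝ) ^ (-κ) := by
      rw [Nat.cast_one, mul_one]
      rcases le_or_gt 0 κ with hk | hk
      · calc ((n + i : ℕ) : ℝ) ^ (-κ) ≤ (n : ℝ) ^ (-κ) :=
              Real.rpow_le_rpow_of_nonpos hn0 hi1 (by linarith)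
          _ ≤ 2 ^ |κ| * (n : ℝ) ^ (-κ) :=
              le_mul_of_one_le_left (by positivity) (Real.one_le_rpow (by norm_num) (abs_nonneg _))
      · rw [abs_of_neg hk]
        calc ((n + i : ℕ) : ℝ) ^ (-κ) ≤ (2 * n : ℝ) ^ (-κ) :=
              Real.rpow_le_rpow hi0.le hi' (by linarith)
          _ = 2 ^ (-κ) * (n : ℝ) ^ (-κ) := Real.mul_rpow (by norm_num) hn0.le
    calc |h (n + (i + 1)) - h (n + i)| ≤ C * ((n + i : ℕ) : ℝ) ^ (-(κ * (1 : ℕ))) := h1
      _ ≤ |C| * ((n + i : ℕ) : ℝ) ^ (-(κ * (1 : ℕ))) :=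
          mul_le_mul_of_nonneg_right (le_abs_self C) (by positivity)
      _ ≤ |C| * (2 ^ |κ| * (n : ℝ) ^ (-κ)) := mul_le_mul_of_nonneg_left h4 (abs_nonneg C)
      _ = _ := by ring
  have hsum : ∀ i : ℕ, i ≤ j → |h (n + i) - h n| ≤ i * (|C| * 2 ^ |κ| * (n : ℝ) ^ (-κ)) := by
    intro i
    induction i with
    | zero => intro _; simp
    | succ i ih =>
      intro hi
      have h1 := ih (by omega)
      have h2 := hstep i (by omega)
      have h3 := abs_sub_le (h (n + (i + 1))) (h (n + i)) (h n)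
      push_cast
      linarith
  refine (hsum j le_rfl).trans ?_
  calc (j : ℝ) * (|C| * 2 ^ |κ| * (n : ℝ) ^ (-κ))
      ≤ (n : ℝ) ^ ρ * (|C| * 2 ^ |κ| * (n : ℝ) ^ (-κ)) :=
        mul_le_mul_of_nonneg_right hj (by positivity)
    _ = |C| * 2 ^ |κ| * (n : ℝ) ^ (ρ - κ) := by
        rw [sub_eq_add_neg, Real.rpow_add hn0]
        ring
    _ ≤ |C| * 2 ^ |κ| * 1 :=
        mul_le_mul_of_nonneg_left (Real.rpow_le_one_of_one_le_of_nonpos hn1 (by linarith))
          (by positivity)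
    _ = _ := mul_one _

/-- difference with step `h` -/
def Dq (h : ℕ) (f : ℕ → ℝ) (n : ℕ) : ℝ := f (n + h) - f n

/-- sum over a window -/
def Tq (h : ℕ) (f : ℕ → ℝ) (n : ℕ) : ℝ := ∑ i ∈ range h, f (n + i)

theorem Dq_eq (h : ℕ) (f : ℕ → ℝ) : Dq h f = Tq h (Dq 1 f) := by
  funext n
  simp only [Dq, Tq]
  induction h with
  | zero => simp
  | succ h ih =>
    rw [sum_range_succ, ← ih]
    ring_nf

theorem comm (h : ℕ) : Function.Commute (Tq h) (Dq 1) := by
  intro f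
  funext n
  simp only [Dq, Tq]
  rw [← sum_sub_distrib]
  refine sum_congr rfl fun i _ => ?_
  rw [show n + 1 + i = n + i + 1 by ring]

theorem Dq_iter (h k : ℕ) (f : ℕ → ℝ) : (Dq h)^[k] f = (Tq h)^[k] ((Dq 1)^[k] f) := by
  have e : Dq h = Tq h ∘ Dq 1 := by
    funext f
    exact Dq_eq h f
  rw [e, (comm h).comp_iterate]
  rfl

theorem Dq_bd (h : ℕ) (k : ℕ) : ∀ (f : ℕ → ℝ) (n : ℕ) (X : ℝ),
    (∀ j ≤ k, |f (n + h * j)| ≤ X) → |(Dq h)^[k] f n| ≤ 2 ^ k * X := by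
  induction k with
  | zero =>
    intro f n X hX
    simpa using hX 0 le_rfl
  | succ k ih =>
    intro f n X hX
    rw [Function.iterate_succ, Function.comp]
    have h1 := ih (Dq h f) n (2 * X) (fun j hj => by
      have h2 := hX j (by omega)
      have h3 := hX (j + 1) (by omega)
      have e : n + h * (j + 1) = n + h * j + h := by ring
      rw [e] at h3
      unfold Dq
      refine (abs_sub _ _).trans ?_
      linarith)
    rw [pow_succ]
    linarith

theorem Tq_pig {h : ℕ} (hh : 1 ≤ h) (k : ℕ) : ∀ (f : ℕ → ℝ) (n : ℕ) (X : ℝ),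
    (Tq h)^[k] f n ≤ X → ∃ j ≤ k * h, f (n + j) ≤ X / h ^ k := by
  have hh0 : (0 : ℝ) < h := by exact_mod_cast hh
  induction k with
  | zero =>
    intro f n X hX
    exact ⟨0, by omega, by simpa using hX⟩
  | succ k ih =>
    intro f n X hX
    rw [Function.iterate_succ, Function.comp] at hX
    obtain ⟨j, hj, h1⟩ := ih (Tq h f) n X hX
    obtain ⟨i, hi, h2⟩ : ∃ i ∈ range h, f (n + j + i) ≤ X / h ^ k / h := by
      by_contra hcon
      push Not at hcon
      have h3 : ∑ i ∈ range h, X / (h : ℝ) ^ k / h < ∑ i ∈ range h, f (n + j + i) :=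
        sum_lt_sum_of_nonempty ⟨0, mem_range.2 hh⟩ hcon
      rw [sum_const, card_range, nsmul_eq_mul, mul_div_cancel₀ _ hh0.ne'] at h3
      exact absurd h1 (not_le.2 h3)
    have hi' := mem_range.1 hi
    refine ⟨j + i, by rw [add_mul, one_mul]; omega, ?_⟩
    rw [← add_assoc, pow_succ, ← div_div]
    exact h2

theorem Dq_neg (k : ℕ) (F : ℕ → ℝ) (n : ℕ) :
    (Dq 1)^[k] (fun m => -F m) n = -(Dq 1)^[k] F n := by
  have h1 : ∀ f : ℕ → ℝ, Dq 1 (fun m => -f m) = fun m => -Dq 1 f m := fun f => by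
    funext n
    simp only [Dq]
    ring
  induction k generalizing F with
  | zero => rfl
  | succ k ih =>
    rw [Function.iterate_succ, Function.comp, h1, ih]
    rfl

theorem cmp {N m e : ℝ} (hN : 0 < N) (h1 : N ≤ m) (h2 : m ≤ 2 * N) :
    m ^ e ≤ 2 ^ |e| * N ^ e ∧ N ^ e ≤ 2 ^ |e| * m ^ e := by
  have hm : 0 < m := by linarith
  have h2e : (1 : ℝ) ≤ 2 ^ |e| := Real.one_le_rpow (by norm_num) (abs_nonneg e)
  rcases le_or_gt 0 e with he | he
  · rw [abs_of_nonneg he] at h2e ⊢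
    refine ⟨?_, ?_⟩
    · rw [← Real.mul_rpow (by norm_num) hN.le]
      exact Real.rpow_le_rpow hm.le h2 he
    · calc N ^ e ≤ m ^ e := Real.rpow_le_rpow hN.le h1 he
        _ ≤ 2 ^ e * m ^ e := le_mul_of_one_le_left (by positivity) h2e
  · rw [abs_of_neg he] at h2e ⊢
    refine ⟨?_, ?_⟩
    · calc m ^ e ≤ N ^ e := Real.rpow_le_rpow_of_nonpos hN h1 he.le
        _ ≤ 2 ^ (-e) * N ^ e := le_mul_of_one_le_left (by positivity) h2e
    · have h3 : (2 * N) ^ e ≤ m ^ e := Real.rpow_le_rpow_of_nonpos hm h2 he.le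
      calc N ^ e = 2 ^ (-e) * (2 * N) ^ e := by
            rw [Real.mul_rpow (by norm_num) hN.le, ← mul_assoc, ← Real.rpow_add (by norm_num)]
            simp
        _ ≤ 2 ^ (-e) * m ^ e := mul_le_mul_of_nonneg_left h3 (by positivity)

end Pool.Agent.J4H67.WI
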