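import Pool.Agent.J4H67.WI.Sum1

/-!
Means over windows, step `1`.
-/

set_option autoImplicit false

namespace Pool.Agent.J4H67.WI

open Filter Topology Finset
open Pool.Agent.J4H67.SL

theorem mean_meets1 {u v : ℕ → ℝ} {ρ : ℝ} (hρ1 : ρ ≤ 1) {w : ℕ → ℕ → ℝ}
    (hw : ∀ n m, 0 ≤ w n m)
    (hw1 : ∀ n : ℕ, ∑ m ∈ Finset.Icc n (n + ⌊(n : ℝ) ^ ρ⌋₊), w n m = 1) {K : ℝ} (hK : 0 < K)
    (hv : ∀ n, 0 < v n)
    (h : ∃ C : ℝ, ∀ n : ℕ, 2 ≤ n →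
      |∑ m ∈ Finset.Icc n (n + ⌊(n : ℝ) ^ ρ⌋₊), w n m * (u m / v m) - 1| ≤ C * (n : ℝ) ^ (-K)) :
    ∃ C : ℝ, Meets1 {m : ℕ | u m ≤ (1 + C * (m : ℝ) ^ (-K)) * v m} ρ ∧
      Meets1 {m : ℕ | (1 - C * (m : ℝ) ^ (-K)) * v m ≤ u m} ρ := by
  obtain ⟨C, hC⟩ := h
  have hmem : ∀ {n m : ℕ}, m ∈ Finset.Icc n (n + ⌊(n : ℝ) ^ ρ⌋₊) →
      n ≤ m ∧ (m : ℝ) ≤ n + (n : ℝ) ^ ρ := by
    intro n m hm
    rw [Finset.mem_Icc] at hm
    refine ⟨hm.1, ?_⟩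
    have h4 : (m : ℝ) ≤ (n : ℝ) + ((⌊(n : ℝ) ^ ρ⌋₊ : ℕ) : ℝ) := by exact_mod_cast hm.2
    have h5 := Nat.floor_le (show 0 ≤ (n : ℝ) ^ ρ by positivity)
    linarith
  have hwpos : ∀ n : ℕ, ∃ m ∈ Finset.Icc n (n + ⌊(n : ℝ) ^ ρ⌋₊), 0 < w n m := by
    intro n
    obtain ⟨m, hm, hm'⟩ := Finset.exists_ne_zero_of_sum_ne_zero
      (show ∑ m ∈ Finset.Icc n (n + ⌊(n : ℝ) ^ ρ⌋₊), w n m ≠ 0 by rw [hw1]; exact one_ne_zero)
    exact ⟨m, hm, lt_of_le_of_ne (hw n m) hm'.symm⟩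
  have hcomp : ∀ n : ℕ, 2 ≤ n → ∀ m ∈ Finset.Icc n (n + ⌊(n : ℝ) ^ ρ⌋₊),
      |C| * (n : ℝ) ^ (-K) ≤ |C| * 2 ^ K * (m : ℝ) ^ (-K) := by
    intro n hn m hm
    obtain ⟨h1, h2⟩ := hmem hm
    have hn1 : (1 : ℝ) ≤ n := by exact_mod_cast (by omega : 1 ≤ n)
    have hn0 : (0 : ℝ) < n := by linarith
    have hm0 : (0 : ℝ) < m := by exact_mod_cast (by omega : 0 < m)
    have h3 : (n : ℝ) ^ ρ ≤ n := by
      conv_rhs => rw [← Real.rpow_one (n : ℝ)]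
      exact Real.rpow_le_rpow_of_exponent_le hn1 hρ1
    have h4 : (m : ℝ) ≤ 2 * n := by linarith
    have h5 : (2 * (n : ℝ)) ^ (-K) ≤ (m : ℝ) ^ (-K) :=
      Real.rpow_le_rpow_of_nonpos hm0 h4 (by linarith)
    have h6 : (n : ℝ) ^ (-K) = 2 ^ K * (2 * (n : ℝ)) ^ (-K) := by
      rw [Real.mul_rpow (by norm_num) hn0.le, ← mul_assoc, ← Real.rpow_add (by norm_num)]
      simp
    rw [h6, mul_assoc]
    exact mul_le_mul_of_nonneg_left (mul_le_mul_of_nonneg_left h5 (by positivity)) (abs_nonneg C)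
  refine ⟨|C| * 2 ^ K, ?_, ?_⟩
  · filter_upwards [eventually_ge_atTop 2] with n hn2
    have hn := hC n hn2
    by_contra hcon
    push Not at hcon
    have hgt : ∀ m ∈ Finset.Icc n (n + ⌊(n : ℝ) ^ ρ⌋₊), 1 + |C| * (n : ℝ) ^ (-K) < u m / v m := by
      intro m hm
      obtain ⟨h1, h2⟩ := hmem hm
      have hmS : m ∉ {m : ℕ | u m ≤ (1 + |C| * 2 ^ K * (m : ℝ) ^ (-K)) * v m} :=
        fun hmem => absurd h2 (not_le.2 (hcon m hmem h1))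
      rw [Set.mem_setOf_eq, not_le] at hmS
      rw [lt_div_iff₀ (hv m)]
      refine lt_of_le_of_lt ?_ hmS
      exact mul_le_mul_of_nonneg_right (by linarith [hcomp n hn2 m hm]) (hv m).le
    have hlt : ∑ m ∈ Finset.Icc n (n + ⌊(n : ℝ) ^ ρ⌋₊), w n m * (1 + |C| * (n : ℝ) ^ (-K)) <
        ∑ m ∈ Finset.Icc n (n + ⌊(n : ℝ) ^ ρ⌋₊), w n m * (u m / v m) := by
      obtain ⟨m, hm, hm'⟩ := hwpos n
      exact Finset.sum_lt_sum (fun i hi => mul_le_mul_of_nonneg_left (hgt i hi).le (hw n i))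
        ⟨m, hm, mul_lt_mul_of_pos_left (hgt m hm) hm'⟩
    rw [← Finset.sum_mul, hw1, one_mul] at hlt
    have h1 := (le_abs_self _).trans hn
    have h2 : C * (n : ℝ) ^ (-K) ≤ |C| * (n : ℝ) ^ (-K) :=
      mul_le_mul_of_nonneg_right (le_abs_self C) (by positivity)
    linarith
  · filter_upwards [eventually_ge_atTop 2] with n hn2
    have hn := hC n hn2
    by_contra hcon
    push Not at hcon
    have hgt : ∀ m ∈ Finset.Icc n (n + ⌊(n : ℝ) ^ ρ⌋₊), u m / v m < 1 - |C| * (n : ℝ) ^ (-K) := by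
      intro m hm
      obtain ⟨h1, h2⟩ := hmem hm
      have hmS : m ∉ {m : ℕ | (1 - |C| * 2 ^ K * (m : ℝ) ^ (-K)) * v m ≤ u m} :=
        fun hmem => absurd h2 (not_le.2 (hcon m hmem h1))
      rw [Set.mem_setOf_eq, not_le] at hmS
      rw [div_lt_iff₀ (hv m)]
      refine lt_of_lt_of_le hmS ?_
      exact mul_le_mul_of_nonneg_right (by linarith [hcomp n hn2 m hm]) (hv m).le
    have hlt : ∑ m ∈ Finset.Icc n (n + ⌊(n : ℝ) ^ ρ⌋₊), w n m * (u m / v m) <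
        ∑ m ∈ Finset.Icc n (n + ⌊(n : ℝ) ^ ρ⌋₊), w n m * (1 - |C| * (n : ℝ) ^ (-K)) := by
      obtain ⟨m, hm, hm'⟩ := hwpos n
      exact Finset.sum_lt_sum (fun i hi => mul_le_mul_of_nonneg_left (hgt i hi).le (hw n i))
        ⟨m, hm, mul_lt_mul_of_pos_left (hgt m hm) hm'⟩
    rw [← Finset.sum_mul, hw1, one_mul] at hlt
    have h3 := (abs_le.1 hn).1
    have h2 : C * (n : ℝ) ^ (-K) ≤ |C| * (n : ℝ) ^ (-K) :=
      mul_le_mul_of_nonneg_right (le_abs_self C) (by positivity)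
    linarith

end Pool.Agent.J4H67.WI
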