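import Pool.Agent.J4H67.WI.Core

/-!
Iterated sums, step `1`.
-/

set_option autoImplicit false

namespace Pool.Agent.J4H67.WI

open Filter Topology Finset
open Pool.Agent.J4H67.SL

/-- a `k`-fold difference of a sequence of size `exp (h n) n ^ e` is small at some point of each
window -/
theorem pig_meets (k : ℕ) {κ ρ : ℝ} (hρ0 : 0 < ρ) (hρ1 : ρ ≤ 1) (hκρ : ρ ≤ κ) {h : ℕ → ℝ}
    (hh : Smooth1 κ h) {e : ℝ} {F : ℕ → ℝ}
    (hF : F =O[atTop] fun n : ℕ => Real.exp (h n) * (n : ℝ) ^ e) :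
    ∃ C : ℝ, 0 ≤ C ∧
      Meets1 {m : ℕ | (Dq 1)^[k] F m ≤ C * (m : ℝ) ^ (e - ρ * k) * Real.exp (h m)} ρ := by
  obtain ⟨C0, hC0⟩ := hF.bound
  obtain ⟨N0, hN0⟩ := eventually_atTop.1 hC0
  obtain ⟨B, hB0, hB⟩ := near hρ1 hκρ hh
  have hK : (0 : ℝ) < (k : ℝ) + 1 := by positivity
  have ht : Tendsto (fun n : ℕ => (n : ℝ) ^ ρ) atTop atTop :=
    (tendsto_rpow_atTop hρ0).comp (tendsto_natCast_atTop_atTop (R := ℝ))
  refine ⟨Real.exp (2 * B) * (2 ^ |e - ρ * k| * (2 ^ k * (|C0| * 2 ^ |e|) *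
    (4 * ((k : ℝ) + 1)) ^ k)), by positivity, ?_⟩
  filter_upwards [ht.eventually_ge_atTop (4 * ((k : ℝ) + 1)), eventually_ge_atTop (max N0 1)]
    with N h1 hN
  have hNN0 : N0 ≤ N := (le_max_left _ _).trans hN
  have hN1 : 1 ≤ N := (le_max_right _ _).trans hN
  have hN1' : (1 : ℝ) ≤ N := by exact_mod_cast hN1
  have hNpos : (0 : ℝ) < N := by linarith
  have hNρ : (N : ℝ) ^ ρ ≤ N := by
    conv_rhs => rw [← Real.rpow_one (N : ℝ)]
    exact Real.rpow_le_rpow_of_exponent_le hN1' hρ1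
  obtain ⟨q, hq⟩ : ∃ q : ℕ, q = ⌊(N : ℝ) ^ ρ / (2 * ((k : ℝ) + 1))⌋₊ := ⟨_, rfl⟩
  have hle : (q : ℝ) ≤ (N : ℝ) ^ ρ / (2 * ((k : ℝ) + 1)) := by
    rw [hq]
    exact Nat.floor_le (by positivity)
  have hlt : (N : ℝ) ^ ρ / (2 * ((k : ℝ) + 1)) < q + 1 := by
    rw [hq]
    exact Nat.lt_floor_add_one _
  have hge : (N : ℝ) ^ ρ / (4 * ((k : ℝ) + 1)) ≤ q := by
    have e1 : (N : ℝ) ^ ρ / (2 * ((k : ℝ) + 1)) = 2 * ((N : ℝ) ^ ρ / (4 * ((k : ℝ) + 1))) := by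
      field_simp
      norm_num
    have e2 : 1 ≤ (N : ℝ) ^ ρ / (4 * ((k : ℝ) + 1)) := by
      rw [le_div_iff₀ (by positivity)]
      linarith
    linarith
  have hq1 : 1 ≤ q := by
    have e2 : 1 ≤ (N : ℝ) ^ ρ / (4 * ((k : ℝ) + 1)) := by
      rw [le_div_iff₀ (by positivity)]
      linarith
    exact_mod_cast e2.trans hge
  have hkq : (k : ℝ) * q ≤ (N : ℝ) ^ ρ := by
    rw [le_div_iff₀ (by positivity)] at hle
    have : (0 : ℝ) ≤ q := Nat.cast_nonneg q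
    nlinarith [mul_nonneg (Nat.cast_nonneg (α := ℝ) k) this]
  have hbd : ∀ j ≤ k, |F (N + q * j)| ≤
      |C0| * (Real.exp B * Real.exp (h N)) * (2 ^ |e| * (N : ℝ) ^ e) := by
    intro j hj
    have hj' : (j : ℝ) ≤ k := by exact_mod_cast hj
    have h3 := hN0 (N + q * j) (by omega)
    rw [Real.norm_eq_abs, Real.norm_of_nonneg (by positivity)] at h3
    have hcast : ((N + q * j : ℕ) : ℝ) = N + q * j := by push_cast; ring
    have hqj : (q : ℝ) * j ≤ (N : ℝ) ^ ρ := by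
      refine le_trans ?_ hkq
      rw [mul_comm]
      exact mul_le_mul_of_nonneg_right hj' (Nat.cast_nonneg q)
    have h4 : ((N + q * j : ℕ) : ℝ) ≤ 2 * N := by
      rw [hcast]
      linarith
    have h5 := (cmp (e := e) hNpos (show (N : ℝ) ≤ ((N + q * j : ℕ) : ℝ) by
      exact_mod_cast (by omega : N ≤ N + q * j)) h4).1
    have h6 := hB N hN1 (q * j) (by push_cast; exact hqj)
    have h7 : Real.exp (h (N + q * j)) ≤ Real.exp B * Real.exp (h N) := by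
      rw [← Real.exp_add]
      exact Real.exp_le_exp.2 (by linarith [(abs_le.1 h6).2])
    calc |F (N + q * j)| ≤ C0 * (Real.exp (h (N + q * j)) * ((N + q * j : ℕ) : ℝ) ^ e) := h3
      _ ≤ |C0| * (Real.exp (h (N + q * j)) * ((N + q * j : ℕ) : ℝ) ^ e) :=
        mul_le_mul_of_nonneg_right (le_abs_self C0) (by positivity)
      _ ≤ |C0| * ((Real.exp B * Real.exp (h N)) * (2 ^ |e| * (N : ℝ) ^ e)) :=
        mul_le_mul_of_nonneg_left (mul_le_mul h7 h5 (by positivity) (by positivity))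
          (abs_nonneg C0)
      _ = _ := by ring
  have h6 := Dq_bd q k F N _ hbd
  rw [Dq_iter] at h6
  obtain ⟨j, hj, h7⟩ := Tq_pig hq1 k ((Dq 1)^[k] F) N _ ((le_abs_self _).trans h6)
  have hj' : (j : ℝ) ≤ k * q := by exact_mod_cast hj
  have hm1 : (N : ℝ) ≤ ((N + j : ℕ) : ℝ) := by exact_mod_cast (by omega : N ≤ N + j)
  have hm2 : ((N + j : ℕ) : ℝ) ≤ N + (N : ℝ) ^ ρ := by
    push_cast
    linarith
  refine ⟨N + j, ?_, by omega, hm2⟩
  show (Dq 1)^[k] F (N + j) ≤ _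
  refine h7.trans ?_
  have h8 := (cmp (e := e - ρ * k) hNpos hm1 (by linarith)).2
  have h9 : (N : ℝ) ^ (ρ * k) / (4 * ((k : ℝ) + 1)) ^ k ≤ (q : ℝ) ^ k := by
    rw [Real.rpow_mul hNpos.le, Real.rpow_natCast, ← div_pow]
    exact pow_le_pow_left₀ (by positivity) hge k
  have hp : 0 < (N : ℝ) ^ (ρ * k) / (4 * ((k : ℝ) + 1)) ^ k := by positivity
  have h10 : Real.exp (h N) ≤ Real.exp B * Real.exp (h (N + j)) := by
    rw [← Real.exp_add]
    exact Real.exp_le_exp.2 (by linarith [(abs_le.1 (hB N hN1 j (by linarith))).1])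
  calc 2 ^ k * (|C0| * (Real.exp B * Real.exp (h N)) * (2 ^ |e| * (N : ℝ) ^ e)) / (q : ℝ) ^ k
      ≤ 2 ^ k * (|C0| * (Real.exp B * Real.exp (h N)) * (2 ^ |e| * (N : ℝ) ^ e)) /
        ((N : ℝ) ^ (ρ * k) / (4 * ((k : ℝ) + 1)) ^ k) :=
        div_le_div_of_nonneg_left (by positivity) hp h9
    _ = (Real.exp B * Real.exp (h N)) * ((2 ^ k * (|C0| * 2 ^ |e|) * (4 * ((k : ℝ) + 1)) ^ k) *
        (N : ℝ) ^ (e - ρ * k)) := by
        rw [Real.rpow_sub hNpos]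
        field_simp
    _ ≤ (Real.exp B * (Real.exp B * Real.exp (h (N + j)))) *
        ((2 ^ k * (|C0| * 2 ^ |e|) * (4 * ((k : ℝ) + 1)) ^ k) *
        (2 ^ |e - ρ * k| * ((N + j : ℕ) : ℝ) ^ (e - ρ * k))) :=
        mul_le_mul (mul_le_mul_of_nonneg_left h10 (by positivity))
          (mul_le_mul_of_nonneg_left h8 (by positivity)) (by positivity) (by positivity)
    _ = _ := by
        rw [two_mul B, Real.exp_add]
        ring

theorem log_upper {x y : ℝ} (hx : 0 < x) (h : x ≤ 1 + y) : Real.log x ≤ y := by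
  have := Real.log_le_sub_one_of_pos hx
  linarith

theorem log_lower {x y : ℝ} (hx : 0 < x) (h0 : 0 ≤ y) (h1 : y ≤ 1 / 2) (h : 1 - y ≤ x) :
    -(2 * y) ≤ Real.log x := by
  rw [Real.le_log_iff_exp_le hx]
  exact (exp_neg_two_le h0 h1).trans h

/-- **one-sided multiplicative bounds** along two sets -/
theorem inter_exp {u : ℕ → ℝ} (hu : ∀ᶠ n in atTop, 0 < u n)
    (hL : ∀ κ : ℝ, κ < 1 / 2 → Smooth1 κ (fun n => Real.log (u n))) {h : ℕ → ℝ}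
    (hh : ∀ κ : ℝ, κ < 1 / 2 → Smooth1 κ h) {ε : ℝ} (hε : 0 < ε) (hε' : ε ≤ 1 / 2) {S S' : Set ℕ}
    (hS : Meets1 S (1 / 2 - ε)) (hS' : Meets1 S' (1 / 2 - ε)) {K : ℝ} (hK : 0 < K)
    (hup : ∃ C : ℝ, ∀ᶠ n : ℕ in atTop ⊓ 𝓟 S, u n ≤ (1 + C * (n : ℝ) ^ (-K)) * Real.exp (h n))
    (hlo : ∃ C : ℝ, ∀ᶠ n : ℕ in atTop ⊓ 𝓟 S', (1 - C * (n : ℝ) ^ (-K)) * Real.exp (h n) ≤ u n) :
    (fun n => Real.log (u n) - h n) =O[atTop] fun n : ℕ => (n : ℝ) ^ (-K) := by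
  have h1 : 1 / 2 - ε / 2 < 1 / 2 := by linarith
  refine inter1 (κ := 1 / 2 - ε / 2) (ρ := 1 / 2 - ε) (by linarith) (by linarith) (by linarith)
    ((hL _ h1).sub (hh _ h1)) hS hS' hK.le ?_ ?_
  · obtain ⟨C, hC⟩ := hup
    refine ⟨C, ?_⟩
    filter_upwards [hC, hu.filter_mono inf_le_left] with n h2 h3
    have h4 : Real.log (u n / Real.exp (h n)) ≤ C * (n : ℝ) ^ (-K) :=
      log_upper (by positivity) (by rw [div_le_iff₀ (Real.exp_pos _)]; exact h2)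
    rw [Real.log_div h3.ne' (Real.exp_pos _).ne', Real.log_exp] at h4
    exact h4
  · obtain ⟨C, hC⟩ := hlo
    have hv : Tendsto (fun n : ℕ => (n : ℝ) ^ (-K)) atTop (𝓝 0) :=
      (tendsto_rpow_neg_atTop hK).comp (tendsto_natCast_atTop_atTop (R := ℝ))
    have hsm : ∀ᶠ n : ℕ in atTop, |C| * (n : ℝ) ^ (-K) ≤ 1 / 2 := by
      have h3 := hv.const_mul |C|
      rw [mul_zero] at h3
      exact (h3.eventually (gt_mem_nhds (show (0 : ℝ) < 1 / 2 by norm_num))).mono fun n hn => hn.le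
    refine ⟨2 * |C|, ?_⟩
    filter_upwards [hC, hu.filter_mono inf_le_left, hsm.filter_mono inf_le_left] with n h2 h3 h5
    have h4 : -(2 * (|C| * (n : ℝ) ^ (-K))) ≤ Real.log (u n / Real.exp (h n)) := by
      refine log_lower (by positivity) (by positivity) h5 ?_
      rw [le_div_iff₀ (Real.exp_pos _)]
      refine le_trans (mul_le_mul_of_nonneg_right ?_ (Real.exp_pos _).le) h2
      have : C * (n : ℝ) ^ (-K) ≤ |C| * (n : ℝ) ^ (-K) :=
        mul_le_mul_of_nonneg_right (le_abs_self _) (by positivity)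
      linarith
    rw [Real.log_div h3.ne' (Real.exp_pos _).ne', Real.log_exp] at h4
    linarith

/-- **The law from iterated sums**, step `1`. -/
theorem sum_law1 {u : ℕ → ℝ} (hu : ∀ᶠ n in atTop, 0 < u n)
    (hL : ∀ κ : ℝ, κ < 1 / 2 → Smooth1 κ (fun n => Real.log (u n))) {h : ℕ → ℝ}
    (hh : ∀ κ : ℝ, κ < 1 / 2 → Smooth1 κ h) {k : ℕ} {D : ℝ} {F : ℕ → ℝ}
    (hF : F =O[atTop] fun n : ℕ => Real.exp (h n) * (n : ℝ) ^ ((k : ℝ) - D))
    (hf : ∀ᶠ n : ℕ in atTop, (Dq 1)^[k] F n = u n - Real.exp (h n)) {K : ℝ} (hK0 : 0 < K)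
    (hK : K < D - k / 2) :
    (fun n => Real.log (u n) - h n) =O[atTop] fun n : ℕ => (n : ℝ) ^ (-K) := by
  obtain ⟨ε, hε0, hε1, hε2⟩ : ∃ ε : ℝ, 0 < ε ∧ ε ≤ 1 / 4 ∧ k * ε ≤ D - k / 2 - K := by
    have hk0 : (0 : ℝ) < (k : ℝ) + 1 := by positivity
    refine ⟨min (1 / 4) ((D - k / 2 - K) / (k + 1)), ?_, min_le_left _ _, ?_⟩
    · exact lt_min (by norm_num) (div_pos (by linarith) (by positivity))
    · have h2 : (k : ℝ) * ((D - k / 2 - K) / (k + 1)) ≤ D - k / 2 - K := by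
        rw [← mul_div_assoc, div_le_iff₀ hk0]
        nlinarith
      exact (mul_le_mul_of_nonneg_left (min_le_right _ _) (Nat.cast_nonneg k)).trans h2
  have h12 : 1 / 2 - ε / 2 < 1 / 2 := by linarith
  -- the two sets
  have key : ∀ G : ℕ → ℝ, G =O[atTop] (fun n : ℕ => Real.exp (h n) * (n : ℝ) ^ ((k : ℝ) - D)) →
      ∃ C : ℝ, Meets1 {m : ℕ | (Dq 1)^[k] G m ≤ C * (m : ℝ) ^ (-K) * Real.exp (h m)}
        (1 / 2 - ε) := by
    intro G hG
    obtain ⟨C, hC0, hC⟩ := pig_meets k (show (0 : ℝ) < 1 / 2 - ε by linarith) (by linarith)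
      (show 1 / 2 - ε ≤ 1 / 2 - ε / 2 by linarith) (hh _ h12) hG
    refine ⟨C, ?_⟩
    filter_upwards [hC, eventually_ge_atTop 1] with n h1 hn
    obtain ⟨s, hs, hns, hsn⟩ := h1
    refine ⟨s, ?_, hns, hsn⟩
    have hs1 : (1 : ℝ) ≤ s := by exact_mod_cast (by omega : 1 ≤ s)
    have hs' : (Dq 1)^[k] G s ≤ C * (s : ℝ) ^ ((k : ℝ) - D - (1 / 2 - ε) * k) * Real.exp (h s) := hs
    show (Dq 1)^[k] G s ≤ C * (s : ℝ) ^ (-K) * Real.exp (h s)
    refine hs'.trans (mul_le_mul_of_nonneg_right (mul_le_mul_of_nonneg_left ?_ hC0)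
      (Real.exp_pos _).le)
    exact Real.rpow_le_rpow_of_exponent_le hs1 (by nlinarith)
  obtain ⟨C₁, h1⟩ := key F hF
  obtain ⟨C₂, h2⟩ := key (fun m => -F m) hF.neg_left
  obtain ⟨N, hN⟩ := eventually_atTop.1 hf
  have hup : Meets1 {m : ℕ | N ≤ m ∧ u m ≤ (1 + C₁ * (m : ℝ) ^ (-K)) * Real.exp (h m)}
      (1 / 2 - ε) := by
    filter_upwards [h1, eventually_ge_atTop N] with n h3 hn
    obtain ⟨s, hs, hns, hsn⟩ := h3
    refine ⟨s, ⟨by omega, ?_⟩, hns, hsn⟩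
    have hs' : (Dq 1)^[k] F s ≤ C₁ * (s : ℝ) ^ (-K) * Real.exp (h s) := hs
    rw [hN s (by omega)] at hs'
    linarith
  have hlo : Meets1 {m : ℕ | N ≤ m ∧ (1 - C₂ * (m : ℝ) ^ (-K)) * Real.exp (h m) ≤ u m}
      (1 / 2 - ε) := by
    filter_upwards [h2, eventually_ge_atTop N] with n h3 hn
    obtain ⟨s, hs, hns, hsn⟩ := h3
    refine ⟨s, ⟨by omega, ?_⟩, hns, hsn⟩
    have hs' : (Dq 1)^[k] (fun m => -F m) s ≤ C₂ * (s : ℝ) ^ (-K) * Real.exp (h s) := hs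
    rw [Dq_neg, hN s (by omega)] at hs'
    linarith
  exact inter_exp hu hL hh hε0 (by linarith) hup hlo hK0
    ⟨C₁, eventually_inf_principal.2 (Eventually.of_forall fun m hm => hm.2)⟩
    ⟨C₂, eventually_inf_principal.2 (Eventually.of_forall fun m hm => hm.2)⟩

end Pool.Agent.J4H67.WI
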